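import Pool.Agent.Y797.HC.Gen
set_option autoImplicit false

/-!
Symbols of circuits of hyperplane arrangements.  Let `l_1, ..., l_m` be linear forms on the affine
space of dimension `n` over a number field `K` and let `F_1, ..., F_m` be monic polynomials in one
variable with integral coefficients.  On the variety `z_e + 1/z_e = F_e(l_e(t))`, `e = 1, ..., m`,
which is a covering of degree `2 ^ m` of the affine space branched along parallels of the
hyperplanes `l_e = 0`, each circuit, that is each set of `n + 1` linear forms with a relation all of
whose coefficients are roots of unity, defines the symbol `{z_e : e in the circuit}` of the Milnor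
K-group `K_(n+1)`.  It is unramified at all discrete valuations, and the regulators of the symbols
of all the circuits are linearly independent if the arrangement is separated.  There is no large
parameter, and the polynomials are arbitrary otherwise.

Examples: for a graph with the vertices `0, ..., n` and the linear forms `l_e = t_a - t_b`
(`t_0 = 0`) of its edges `e = {a, b}` (multiple edges are allowed) the Hamiltonian cycles are
circuits.  For `n = 1` one has the symbols `{z_e, z_f}` on the fibre product over the line of
arbitrary curves `z_e + 1/z_e = F_e(x)`.  For `n = 2`, the forms `t_1`, `t_2`, `-t_1 - t_2` and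
linear `F_e` these are the K3 surfaces `z_1 + 1/z_1 + z_2 + 1/z_2 + z_3 + 1/z_3 = k`, `|k| ≥ 7`.
-/

namespace Pool.Agent.Results.MP_4a177b_nt.CircuitSymbols

open Pool.Agent.Y797.HC

open Pool.Agent.TH826.MK (KQ Unramified)

/-- Let `σ` be a complex embedding of the number field `K`, let `l_1, ..., l_m` be linear forms on
the affine space of dimension `n` over `K` and `F_1, ..., F_m` monic polynomials of positive degree
with coefficients in the ring of integers of `K` (`hA`).  Let `D_1, ..., D_N` be different circuits
(`hD`, `hdist`): sets of `n + 1` of the linear forms with a relation `∑ s_i l_i = 0` with roots of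
unity `s_i`.  Suppose that the last `n` elements of each circuit `D_k` form a box (`hB`), and that
each index `e` belongs to a box (`hcov`); `P_1, ..., P_n` form a box if the linear forms `l_e`,
`e = P_1, ..., P_n`, are linearly independent, the complex roots `b_{e,j}` of `F_e` have mutual
distances at least `5` for these `e`, and if `l_e(t)` has distance less than `5/2` from `b_{e,0}`
for these `e`, then `|F_f(l_f(t))| > 2` for all the other `f`.  Then the coordinate ring of the
variety `z_e + 1/z_e = F_e(l_e(t))`, `e = 1, ..., m`, of dimension `n` is a domain, the symbols
`{z_e : e ∈ D_k}` in its Milnor K-group `K_{n+1}` are unramified at all discrete valuations of the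
function field, and no nontrivial real linear combination of the regulators of these `N` symbols
vanishes on all tori (of dimension `n` and class `C²`) in the smooth part of the complex points over
`σ`. -/
theorem result.{u, v} (n m N : ℕ) (K : Type u) [Field K] [NumberField K] (σ : K →+* ℂ)
    (A : Arr K n m) (hA : A.Integral) (D : Fin N → Fin (n + 1) → Fin m)
    (hD : ∀ k, A.Circuit (D k)) (hdist : ∀ k k', Set.range (D k) = Set.range (D k') → k = k')
    (hB : ∀ k, A.Box σ fun i => D k i.succ)
    (hcov : ∀ e, ∃ (P : Fin n → Fin m) (i : Fin n), A.Box σ P ∧ P i = e) :
    IsDomain A.CRing ∧
      (∀ (L : Type v) [Field L] [Algebra A.CRing L] [IsFractionRing A.CRing L] (k : Fin N),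
        KQ.map (n + 1) (algebraMap A.CRing L) (A.sym (D k)) ∈ Unramified L (n + 1)) ∧
      A.Indep σ D :=
  main n m N K σ A hA D hD hdist hB hcov

end Pool.Agent.Results.MP_4a177b_nt.CircuitSymbols
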