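import Pool.Agent.Y775.CD.Cyc
set_option autoImplicit false

/-!
Integral classes in `K_3` of the products `C × D` of two curves `C : z + 1/z = F(x)` and
`D : w + 1/w = G(y)` over number fields (`j = 3`): every factorization `F(x) - G(y) = ∏_b P_b(x, y)`
gives unramified symbols `{P_b(x, y), z, w}`. Their sum is zero, and this is the only linear relation
between their regulators: the rank is the number of factors minus one.
-/

namespace Pool.Agent.Results.MP_4a177b_nt.CorrespondenceClasses

open Polynomial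

open Pool.Agent.TH826.MK (KQ symb Torus Unramified circ)

open Pool.Agent.Y775.CC (CRing cc cx cz uu Branches SmoothPts smoothPts)

open Pool.Agent.Y775.CD

/-- `γ` is the loop `z = R e^{2πiθ}`, `x = φ(z + 1/z)` of complex points over `s` of the curve
`z² - F(x) z + 1 = 0`. -/
structure IsLoop {K : Type*} [Field K] (s : K →+* ℂ) {F : K[X]} (φ : ℂ → ℂ) (R : ℝ)
    (γ : Torus (CRing F) 1) : Prop where
  eq_const : ∀ θ (a : K), γ.e θ (cc F a) = s a
  eq_x : ∀ θ, γ.e θ (cx F) = φ (uu R (θ 0))
  eq_z : ∀ θ, γ.e θ (cz F) = circ R (θ 0)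

/-- `Γ` is the product of the loop `γ` in `C` and the loop `δ` in `D`. -/
structure IsProd {K : Type*} [Field K] {F G : K[X]} (γ : Torus (CRing F) 1)
    (δ : Torus (CRing G) 1) (Γ : Torus (OpRing F G) 2) : Prop where
  fst : ∀ θ r, Γ.e θ (toO F G (pr1 F G r)) = γ.e (fun _ => θ 0) r
  snd : ∀ θ r, Γ.e θ (toO F G (pr2 F G r)) = δ.e (fun _ => θ 1) r

/-- `Γ_{ij}` are the products `γ_i × δ_j` of the loops `γ_i : |z| = R, x = φ_i(z + 1/z)` in `C` and
`δ_j : |w| = 1, y = ψ_j(w + 1/w)` in `D`, where the `φ_i` and the `ψ_j` are the `n` analytic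
inverses of `F` and of `G` on a convex open set `V` that contains `[-2, 2]` and the closed region
`{z + 1/z : 1 ≤ |z| ≤ R}`, `R > 1`. -/
def LoopTori {K : Type*} [Field K] (s : K →+* ℂ) (F G : K[X]) {n : ℕ}
    (Γ : Fin n → Fin n → Torus (OpRing F G) 2) : Prop :=
  ∃ (V : Set ℂ) (φ ψ : Fin n → ℂ → ℂ) (R : ℝ) (γ : Fin n → Torus (CRing F) 1)
    (δ : Fin n → Torus (CRing G) 1),
    Branches (F.map s) V φ ∧ Branches (G.map s) V ψ ∧ 1 < R ∧
    (∀ z : ℂ, 1 ≤ ‖z‖ → ‖z‖ ≤ R → z + z⁻¹ ∈ V) ∧
    (∀ i, IsLoop s (φ i) R (γ i)) ∧ (∀ j, IsLoop s (ψ j) 1 (δ j)) ∧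
    ∀ i j, IsProd (γ i) (δ j) (Γ i j)

/-- `F` has no critical value in the interval `[-2, 2]` over `s`. -/
def NoCrit {K : Type*} [Field K] (s : K →+* ℂ) (F : K[X]) : Prop :=
  ∀ x : ℂ, (derivative F).eval₂ s x = 0 → ∀ t : ℝ, |t| ≤ 2 → F.eval₂ s x ≠ t

/-- The symbols `{P_b(x, y), z, w}` are unramified at all discrete valuations of the function field
`L` of `C × D`, and their sum is zero in the Milnor K-group of `L`. -/
def UnramifiedSumZero {K : Type*} [Field K] {F G : K[X]} {ι : Type*} [Fintype ι]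
    {P : ι → K[X][X]} (H : Factorization F G P) (L : Type*) [Field L] [Algebra (PrRing F G) L] :
    Prop :=
  ∃ f : OpRing F G →+* L, (∀ r : PrRing F G, f (toO F G r) = algebraMap (PrRing F G) L r) ∧
    (∀ b, KQ.map 3 f (symb (H.ent b)) ∈ Unramified L 3) ∧
    ∑ b, KQ.map 3 f (symb (H.ent b)) = 0

/-- Let `K` be a number field, `s : K → ℂ` an embedding, `F` and `G` monic polynomials of the same
degree `n ≥ 1` whose coefficients are algebraic integers of `K`, without critical values in
`[-2, 2]` over `s`; suppose that `K` contains the `n`-th roots of unity or that the cyclotomic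
polynomials `Φ_d`, `d ∣ n`, are irreducible over `K` (e.g. `K = ℚ`). Let `C` be the curve
`z² - F(x) z + 1 = 0` and `D` the curve `w² - G(y) w + 1 = 0`, and let `F(x) - G(y) = ∏_b P_b(x, y)`
be a factorization into polynomials over `K` that are monic in `x` and not constant (for example, the
decomposition into irreducible factors). Then the coordinate ring `PrRing F G` of `C × D` is a
domain, `C` and `D` are smooth at their complex points over `s`, the symbols `{P_b(x, y), z, w}` are
unramified at all discrete valuations of the function field of `C × D`, and their sum is zero. There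
are tori `Γ_{ij} = γ_i × δ_j` as in `LoopTori` such that the only linear relations between the
regulators on these tori of the symbols are the multiples of this one: for real numbers `t_b`, all
`∑_b t_b ⟨{P_b, z, w}, Γ_{ij}⟩` vanish if and only if the `t_b` are equal. So the vectors of the
regulators of the symbols span a space whose dimension is the number of factors minus one. -/
theorem result.{u, v, w} (K : Type u) [Field K] [NumberField K] (s : K →+* ℂ) (n : ℕ)
    (hn : 0 < n)
    (hK : (∃ ζ : K, IsPrimitiveRoot ζ n) ∨ ∀ d, d ∣ n → Irreducible (cyclotomic d K))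
    (F G : K[X]) (hF : F.Monic) (hG : G.Monic) (hFn : F.natDegree = n) (hGn : G.natDegree = n)
    (hFi : ∀ i, IsIntegral ℤ (F.coeff i)) (hGi : ∀ i, IsIntegral ℤ (G.coeff i))
    (hcF : NoCrit s F) (hcG : NoCrit s G) {ι : Type w} [Fintype ι] (P : ι → K[X][X])
    (H : Factorization F G P) :
    IsDomain (PrRing F G) ∧ SmoothPts s F ∧ SmoothPts s G ∧
    (∀ (L : Type v) [Field L] [Algebra (PrRing F G) L] [IsFractionRing (PrRing F G) L],
      UnramifiedSumZero H L) ∧
    ∃ Γ : Fin n → Fin n → Torus (OpRing F G) 2, LoopTori s F G Γ ∧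
      ∀ t : ι → ℝ, (∀ i j, ∑ b, t b * (Γ i j).reg (symb (H.ent b)) = 0) ↔
        ∀ b b', t b = t b' := by
  have hposF : 0 < F.natDegree := by omega
  have hposG : 0 < G.natDegree := by omega
  refine ⟨isDomain_PrRing hposF hposG, smoothPts hcF, smoothPts hcG, ?_, ?_⟩
  · intro L _ _ _
    have hinj : Function.Injective (algebraMap (PrRing F G) L) := IsFractionRing.injective _ _
    have hunit : IsUnit (algebraMap (PrRing F G) L (pdel F G)) := by
      refine IsUnit.mk0 _ ?_
      rw [Ne, map_eq_zero_iff _ hinj]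
      exact pdel_ne_zero hposF hposG
    exact ⟨IsLocalization.Away.lift (pdel F G) hunit, fun r =>
      IsLocalization.Away.lift_eq (pdel F G) hunit r, fun b =>
      H.mem_unramified hn (cycCond hn hK) hF hG hFn hGn hFi hGi _ b, H.sum_eq_zero _⟩
  · obtain ⟨V, φ, ψ, R, γ, δ, Γ, hB, hB', hR, hV, h1, h2, h3, h4⟩ :=
      main hF hG hFn hGn hn hcF hcG H
    exact ⟨Γ, ⟨V, φ, ψ, R, γ, δ, hB, hB', hR, hV,
      fun i => ⟨fun θ => (h1 i θ).1, fun θ => (h1 i θ).2.1, fun θ => (h1 i θ).2.2⟩,
      fun i => ⟨fun θ => (h2 i θ).1, fun θ => (h2 i θ).2.1, fun θ => (h2 i θ).2.2⟩,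
      fun i j => ⟨fun θ r => (h3 i j θ).1 r, fun θ r => (h3 i j θ).2 r⟩⟩, h4⟩

end Pool.Agent.Results.MP_4a177b_nt.CorrespondenceClasses
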